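import Pool.Agent.X39.Near.EisInd
import Pool.Agent.X39.Near.DepInt

/-!
# `q`, `P (q)`, `Q (q)`, `R (q)` for ALL algebraic `τ` close to any number outside a set of dimension zero

Nesterenko's question: are at least `4` of the `5` numbers `τ`, `q = e ^ (2 π i τ)`, `P (q)`, `Q (q)`, `R (q)` algebraically
independent, for all `τ` in the upper half-plane which are not quadratic? For algebraic `τ` this says that `q`, `P (q)`,
`Q (q)`, `R (q)` are algebraically independent. We prove, outside ONE set `E` of complex numbers of Hausdorff dimension `0`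
(for all number fields, degrees and scales): for every `x` in the upper half-plane, the four numbers `q`, `P (q)`, `Q (q)`,
`R (q)`, for ALL algebraic numbers `τ` of a number field close to `x`, satisfy no relation of bounded degree with
coefficients of polynomial size, even approximately; here the coefficients may be polynomials in arbitrary constants
`ξ_1, …, ξ_g` fixed in advance (for instance `π`, `e`, values of the Gamma function, periods). In particular nonzero
integral polynomials of degree at most `d` and of height at most `T ^ A` have values of absolute value greater than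
`T ^ (-B)` at these numbers.

Proof: `z`, `q`, `E₂`, `E₄`, `E₆` are algebraically independent functions (Mahler; here from the linear independence of
derivations in `Y776.AxJ`, and `Pool.Agent.X39.Near.EisInd`); the levels of the library give, on compact sets, at most
`C T ^ ε` exceptional points of height `T`, for every `ε > 0`, and so a limsup set of dimension `0`
(`Pool.Agent.X39.Near`).
-/

set_option autoImplicit false

open MvPolynomial NumberField

namespace Pool.Agent.Results.MP_2a98a8_nt.ApproximationsOfAllNumbers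

open Pool.Agent.X39.Near (Size Dep)

/-- the numbers `q = e ^ (2 π i τ)`, `P (q)`, `Q (q)`, `R (q)` -/
noncomputable def value (τ : ℂ) : Fin 4 → ℂ :=
  ![Complex.exp (2 * (Real.pi : ℂ) * Complex.I * τ),
    1 - 24 * ∑' n : ℕ, ((ArithmeticFunction.sigma 1 (n + 1) : ℕ) : ℂ) *
      Complex.exp (2 * (Real.pi : ℂ) * Complex.I * τ) ^ (n + 1),
    1 + 240 * ∑' n : ℕ, ((ArithmeticFunction.sigma 3 (n + 1) : ℕ) : ℂ) *
      Complex.exp (2 * (Real.pi : ℂ) * Complex.I * τ) ^ (n + 1),
    1 - 504 * ∑' n : ℕ, ((ArithmeticFunction.sigma 5 (n + 1) : ℕ) : ℂ) *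
      Complex.exp (2 * (Real.pi : ℂ) * Complex.I * τ) ^ (n + 1)]

/-- **Theorem.** Let `ξ_1, …, ξ_g` be complex numbers. There is a set `E` of complex numbers of Hausdorff dimension `0` such
that for all `x` in the upper half-plane outside `E`, all number fields `F` with an embedding `ι` in `ℂ`, all `d`, `A` and
`ω > 0` there are `B`, `T₁` such that for all `T ≥ T₁` and all `τ ∈ F`, quotients of integers with conjugates at most `T`,
with `|ι τ - x| ≤ T ^ (-ω)`: (1) there is no relation (`Dep`) between the numbers `q`, `P (q)`, `Q (q)`, `R (q)`, where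
`q = e ^ (2 π i τ)`; (2) `|W (q, P (q), Q (q), R (q))| > T ^ (-B)` for all nonzero integral polynomials `W` of degree at
most `d` in each variable with coefficients of absolute value at most `T ^ A`. -/
theorem result {g : ℕ} (ξ : Fin g → ℂ) :
    ∃ E : Set ℂ, dimH E = 0 ∧ ∀ x : ℂ, 0 < x.im → x ∉ E →
      ∀ (F : Type) [Field F] [NumberField F] (ι : F →+* ℂ) (d A : ℕ) (ω : ℝ), 0 < ω → ∃ B T₁ : ℝ, ∀ T : ℝ, T₁ ≤ T →
        ∀ τ : F, Size F T τ → ‖ι τ - x‖ ≤ T ^ (-ω) →
          ¬ Dep (value (ι τ)) ξ F ι d A B T ∧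
          ∀ W : MvPolynomial (Fin 4) ℤ, W ≠ 0 → (∀ j, W.degreeOf j ≤ d) → (∀ e, |((W.coeff e : ℤ) : ℝ)| ≤ T ^ A) →
            T ^ (-B) < ‖aeval (value (ι τ)) W‖ := by
  obtain ⟨E, h1, h2, -⟩ := Pool.Agent.X39.Near.near_dep Pool.Agent.X39.Near.Eis.Hp Pool.Agent.Y776.AxJ.isOpen_H
    (fun (k : Fin 4) z => Pool.Agent.X39.Near.Eis.ev z k) (fun k z hz => Pool.Agent.X39.Near.Eis.ev_an k z hz)
    Pool.Agent.X39.Near.Eis.ev_ind ξ
  refine ⟨E, h1, fun x hx hxE F _ _ ι d A ω hω => ?_⟩
  obtain ⟨B, T₁, h3⟩ := h2 x hx hxE F ι d A ω hω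
  refine ⟨B, max T₁ 1, fun T hT τ hτ hτx => ?_⟩
  have h4 : ¬ Dep (value (ι τ)) ξ F ι d A B T := h3 T ((le_max_left _ _).trans hT) τ hτ hτx
  refine ⟨h4, fun P hP hPd hPA => ?_⟩
  have hT0 : 0 < T := lt_of_lt_of_le one_pos ((le_max_right _ _).trans hT)
  exact Pool.Agent.X39.Near.int_of_not_dep h4 hT0 P hP hPd (fun e => by exact_mod_cast hPA e)

end Pool.Agent.Results.MP_2a98a8_nt.ApproximationsOfAllNumbers
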